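import Pool.Agent.H948.SF.Stm

/-!
# SF-BLOCK: functions of disjoint coordinate blocks are independent
-/

set_option autoImplicit false

namespace Pool.Agent.H331.SF

open MeasureTheory ProbabilityTheory Set Filter
open Pool.Agent.H948.SF
open scoped ENNReal NNReal Nat Topology

/-- the sigma-algebra of the coordinates in `I` -/
@[reducible] def sg {J : Type} (I : Set J) : MeasurableSpace (J → Cell) :=
  ⨆ j ∈ I, MeasurableSpace.comap (fun ω : J → Cell => ω j) inferInstance

theorem sg_mono {J : Type} {I I' : Set J} (h : I ⊆ I') : sg I ≤ sg I' := by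
  unfold sg
  exact biSup_mono fun j hj => h hj

/-- functions of the coordinates in `I` are measurable with respect to `sg I` -/
theorem comap_le_sg {J : Type} {F : Type} [MeasurableSpace F] (Y : (J → Cell) → F)
    (I : Set J) (hY : Measurable Y)
    (hdep : ∀ ω ω' : J → Cell, (∀ j ∈ I, ω j = ω' j) → Y ω = Y ω') :
    MeasurableSpace.comap Y inferInstance ≤ sg I := by
  classical
  let u : U1 := ⟨1, by norm_num⟩
  let ext : (I → Cell) → (J → Cell) := fun x j => if h : j ∈ I then x ⟨j, h⟩ else (0, fun _ => u)
  have hext : Measurable ext := by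
    refine measurable_pi_iff.2 fun j => ?_
    by_cases h : j ∈ I
    · have e : (fun x : I → Cell => ext x j) = fun x => x ⟨j, h⟩ := by
        funext x
        simp only [ext, dif_pos h]
      rw [e]
      exact measurable_pi_apply _
    · have e : (fun x : I → Cell => ext x j) = fun _ => (0, fun _ => u) := by
        funext x
        simp only [ext, dif_neg h]
      rw [e]
      exact measurable_const
  let rs : (J → Cell) → (I → Cell) := fun ω j => ω j
  have hrs : @Measurable _ _ (sg I) _ rs := by
    refine (@measurable_pi_iff _ _ _ (sg I) _ rs).2 fun j => ?_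
    refine Measurable.mono (ma := MeasurableSpace.comap (fun ω : J → Cell => ω j) inferInstance)
      (comap_measurable _) ?_ le_rfl
    exact le_biSup (fun j : J => MeasurableSpace.comap (fun ω : J → Cell => ω j) inferInstance) j.2
  have e : Y = (Y ∘ ext) ∘ rs := by
    funext ω
    refine hdep _ _ fun j hj => ?_
    simp only [ext, rs, dif_pos hj]
  have hm : @Measurable _ _ (sg I) _ Y := by
    rw [e]
    exact (hY.comp hext).comp hrs
  exact hm.comap_le

theorem s_block : S_BLOCK := by
  classical
  intro J r κ F _ Y I hY hdep hdisj
  have hind : iIndep (fun j : J => MeasurableSpace.comap (fun ω : J → Cell => ω j) inferInstance)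
      (Measure.infinitePi fun j => cellLaw (r j)) := by
    have h := iIndepFun_infinitePi (P := fun j => cellLaw (r j)) (X := fun _ ω ↦ ω) (by fun_prop)
    exact (iIndepFun_iff_iIndep _ _ _).1 h
  have hle : ∀ j : J, MeasurableSpace.comap (fun ω : J → Cell => ω j) inferInstance ≤
      (MeasurableSpace.pi : MeasurableSpace (J → Cell)) := fun j => (measurable_pi_apply j).comap_le
  have key : ∀ (s : Finset κ) (A : κ → Set (J → Cell)),
      (∀ k ∈ s, MeasurableSet[sg (I k)] (A k)) →
      (Measure.infinitePi fun j => cellLaw (r j)) (⋂ k ∈ s, A k) =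
        ∏ k ∈ s, (Measure.infinitePi fun j => cellLaw (r j)) (A k) := by
    intro s
    induction s using Finset.induction_on with
    | empty =>
      intro A _
      simp
    | insert a s ha ih =>
      intro A hA
      rw [Finset.set_biInter_insert, Finset.prod_insert ha,
        ← ih A fun k hk => hA k (Finset.mem_insert_of_mem hk)]
      have hd : Disjoint (I a) (⋃ k ∈ s, I k) := by
        rw [Set.disjoint_iUnion₂_right]
        intro k hk
        exact hdisj a k fun h => ha (h ▸ hk)
      have h2 := indep_iSup_of_disjoint hle hind hd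
      refine (Indep_iff _ _ _).1 h2 _ _ (hA a (Finset.mem_insert_self _ _)) ?_
      refine @Finset.measurableSet_biInter _ _ (sg (⋃ k ∈ s, I k)) _ s fun k hk => ?_
      refine sg_mono ?_ _ (hA k (Finset.mem_insert_of_mem hk))
      exact Set.subset_biUnion_of_mem (u := fun k => I k) hk
  rw [iIndepFun_iff]
  intro s f hf
  exact key s f fun k hk => comap_le_sg (Y k) (I k) (hY k) (hdep k) _ (hf k hk)

end Pool.Agent.H331.SF
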